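import Pool.Agent.U695.XG.Fin

/-!
# Project XH: the exact law of the kernels of the Laplacians over `ℤ[i]`

A transport to `ℤ[i]` and the quadratic symbols of the library project XL (`Pool/Agent/Y703/XL` and the files
named there, by helpers 31, 275, 968, 994, 170, 697, 696, 703, for the cubic symbols of `ℤ[ω]`): the kernel
of the Laplacian of the symmetric matrix of the quadratic residue symbols of the prime divisors has
`2 ^ (r + 1)` elements for exactly the proportion `c2 / ((2 - 1) (4 - 1) ⋯ (2 ^ r - 1))` of the `D` of a class.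
-/

set_option autoImplicit false
set_option linter.unusedVariables false

open scoped Classical

namespace Pool.Agent.U695.XH

open Finset
open H385 (ZI nrm)
open Pool.Agent.Y699 (PP)
open Pool.Agent.U695.XG
open Pool.Agent.Y759.CX (fr)
open Pool.Agent.U695.XG.LA (Sy)

/-- the number of the solutions of the Laplacian system of a set -/
noncomputable def nS (S : Finset ZI) : ℕ :=
  Nat.card {v : S → ZMod 2 // ∀ π : S, ∑ ρ : S, cs π ρ * (v ρ - v π) = 0}

/-- the sets whose solution space has dimension `r + 1` -/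
def Gr (r : ℕ) (S : Finset ZI) : Prop := nS S = 2 ^ (r + 1)

/-- the limits `c2 / ((2 - 1) (4 - 1) ⋯ (2 ^ r - 1))` -/
noncomputable def cr (r : ℕ) : ℝ := c2 / ∏ i ∈ range r, ((2 : ℝ) ^ (i + 1) - 1)

/-- the number of the solutions of the block system -/
noncomputable def nA {U J : Type} [Fintype U] [Fintype J] (A : U → U → ZMod 2)
    (B : U → J → ZMod 2) (R : J → J → ZMod 2) : ℕ :=
  Nat.card {p : (U → ZMod 2) × (J → ZMod 2) //
    (∀ u, ∑ v, A u v * (p.1 v - p.1 u) + ∑ l, B u l * (p.2 l - p.1 u) = 0) ∧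
    (∀ k, ∑ u, B u k * (p.1 u - p.2 k) + ∑ l, R k l * (p.2 l - p.2 k) = 0)}

/-- the probability that a random symmetric completion has `2 ^ (r + 1)` solutions. -/
def S_LA : Prop := ∀ (r : ℕ) (U J : Type) [Fintype U] [Fintype J] [LinearOrder J]
  (A : U → U → ZMod 2) (B : U → J → ZMod 2), Fintype.card U < Fintype.card J →
  (∀ u v, A u v = A v u) →
  (∀ w : U → ZMod 2, (∃ u, w u ≠ 0) → ∃ k, ∑ u, w u * B u k ≠ 0) →
  |((univ.filter fun α : prs J → ZMod 2 => nA A B (ext α) = 2 ^ (r + 1)).card : ℝ) /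
      2 ^ (prs J).card - cr r| ≤ 2 ^ (r + 2) * (2 ^ Fintype.card U / 2 ^ Fintype.card J)

/-- the number of the elements of the radical of a form -/
noncomputable def nR {V : Type} [AddCommGroup V] [Module (ZMod 2) V] (S : Sy V) : ℕ :=
  Nat.card {x : V // ∀ y, S.1 x y = 0}

/-- the number of the symmetric forms with a radical of given dimension -/
def S_REC : Prop := ∀ (V W : Type) [AddCommGroup V] [Module (ZMod 2) V] [Finite V]
  [AddCommGroup W] [Module (ZMod 2) W] [Finite W] (r : ℕ),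
  Module.finrank (ZMod 2) V = Module.finrank (ZMod 2) W + 1 →
  ((2 : ℝ) ^ (r + 1) - 1) * fr (fun S : Sy V => nR S = 2 ^ (r + 1)) =
    (1 - (1 / 2 : ℝ) ^ Module.finrank (ZMod 2) V) * fr (fun S : Sy W => nR S = 2 ^ r)

/-- the probability that the radical has dimension `r` -/
def S_LIM : Prop := ∀ (V : Type) [AddCommGroup V] [Module (ZMod 2) V] [Finite V] (r : ℕ),
  |fr (fun S : Sy V => nR S = 2 ^ r) - cr r| ≤
    (2 ^ (r + 1) - 1) * (1 / 2) ^ Module.finrank (ZMod 2) V

/-- the number of the solutions of the abstract block system -/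
noncomputable def nG {V X : Type} [AddCommGroup V] [Module (ZMod 2) V]
    [AddCommGroup X] [Module (ZMod 2) X] (A : X →ₗ[ZMod 2] X →ₗ[ZMod 2] ZMod 2)
    (c : X →ₗ[ZMod 2] V →ₗ[ZMod 2] ZMod 2) (S : V →ₗ[ZMod 2] V →ₗ[ZMod 2] ZMod 2) : ℕ :=
  Nat.card {p : X × V // (∀ x', A p.1 x' + c x' p.2 = 0) ∧ ∀ y', c p.1 y' + S p.2 y' = 0}

/-- the abstract block system -/
def S_ABS : Prop := ∀ (V X : Type) [AddCommGroup V] [Module (ZMod 2) V] [Finite V]
  [AddCommGroup X] [Module (ZMod 2) X] [Finite X]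
  (A : X →ₗ[ZMod 2] X →ₗ[ZMod 2] ZMod 2) (c : X →ₗ[ZMod 2] V →ₗ[ZMod 2] ZMod 2),
  (∀ x y, A x y = A y x) → (∀ x, (∀ y, c x y = 0) → x = 0) →
  ∃ Z : Submodule (ZMod 2) V,
    Module.finrank (ZMod 2) V ≤ Module.finrank (ZMod 2) Z + Module.finrank (ZMod 2) X ∧
    ∀ n : ℕ, fr (fun S : Sy V => nG A c S.1 = n) = fr (fun T : Sy Z => nR T = n)

/-- the count in a box -/
def S_BOX : Prop := S_EQ → S_LA → ∀ r : ℕ, KEYf.BXG (Gr r) (cr r) (2 ^ (r + 2))

end Pool.Agent.U695.XH
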