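import Pool.Agent.U695.XH.Stm

/-!
# Project XL, part ABS: the abstract block system (helper968)
-/

set_option autoImplicit false
set_option linter.unusedVariables false

open scoped Classical

namespace Pool.Agent.U695.XH.ABSf

open Function Module
open Pool.Agent.Y759.CX (fr fr_equiv fr_comp)
open Pool.Agent.U695.XG.LA
open Pool.Agent.U695.XH (nR nG S_ABS)

section

variable {V X : Type} [AddCommGroup V] [Module F V] [Finite V]
  [AddCommGroup X] [Module F X] [Finite X]

/-- the law of the number of the solutions of the block system -/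
theorem fr_nG (A : X →ₗ[F] X →ₗ[F] F) (hA : ∀ x y, A x y = A y x)
    (c : X →ₗ[F] V →ₗ[F] F) (hc : ∀ x, (∀ y, c x y = 0) → x = 0) :
    ∃ Z : Submodule F V, finrank F V ≤ finrank F Z + finrank F X ∧
      ∀ n : ℕ, fr (fun S : Sy V => nG A c S.1 = n) = fr (fun T : Sy Z => nR T = n) := by
  let D : Submodule F (Module.Dual F V) := (LinearMap.ker A).map c
  let Z : Submodule F V := D.dualCoannihilator
  have hZ : ∀ z, z ∈ Z ↔ ∀ k, A k = 0 → c k z = 0 := by
    intro z
    rw [Submodule.mem_dualCoannihilator]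
    constructor
    · intro h k hk
      exact h (c k) ⟨k, hk, rfl⟩
    · rintro h _ ⟨k, hk, rfl⟩
      exact h k hk
  have hdd : ∀ f : V →ₗ[F] F, (∀ z ∈ Z, f z = 0) → ∃ k, A k = 0 ∧ c k = f := by
    intro f hf
    have h1 : f ∈ Z.dualAnnihilator := by
      rw [Submodule.mem_dualAnnihilator]
      exact hf
    have h2 : Z.dualAnnihilator = D := Subspace.dualCoannihilator_dualAnnihilator_eq
    rw [h2] at h1
    obtain ⟨k, hk, hk'⟩ := h1
    exact ⟨k, hk, hk'⟩
  have hfin : finrank F V ≤ finrank F Z + finrank F X := by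
    have h1 := Subspace.finrank_add_finrank_dualCoannihilator_eq D
    have h2 : finrank F D ≤ finrank F (LinearMap.ker A) := Submodule.finrank_map_le _ _
    have h3 : finrank F (LinearMap.ker A) ≤ finrank F X := Submodule.finrank_le _
    have h4 : finrank F Z = finrank F D.dualCoannihilator := rfl
    omega
  obtain ⟨σ, hσ⟩ := exists_sigma A hA c Z fun z hz => (hZ z).1 hz
  let ρ : Sy V →+ Sy Z :=
    { toFun := fun T => ⟨T.1.compl₁₂ Z.subtype Z.subtype, fun x y => T.2 x y⟩
      map_zero' := rfl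
      map_add' := fun _ _ => rfl }
  have hρ : Surjective ρ := by
    obtain ⟨q, hq⟩ := LinearMap.exists_leftInverse_of_injective Z.subtype
      (LinearMap.ker_eq_bot.2 Z.injective_subtype)
    have hq' : ∀ z : Z, q (z : V) = z := fun z => LinearMap.congr_fun hq z
    intro T
    refine ⟨⟨T.1.compl₁₂ q q, fun x y => T.2 _ _⟩, ?_⟩
    refine Subtype.ext (LinearMap.ext fun x => LinearMap.ext fun y => ?_)
    show T.1 (q (x : V)) (q (y : V)) = T.1 x y
    rw [hq', hq']
  let β : Sy Z := ⟨c.compl₁₂ σ Z.subtype, fun x y => by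
    show c (σ x) (y : V) = c (σ y) (x : V)
    have h1 := hσ y (σ x)
    have h2 := hσ x (σ y)
    rw [hA] at h1
    exact add_left_cancel (h1.trans h2.symm)⟩
  have hval : ∀ (T : Sy V) (z z' : Z), (ρ T + β).1 z z' =
      T.1 (z : V) (z' : V) + c (σ z) (z' : V) := fun _ _ _ => rfl
  have hmap : ∀ (S : Sy V) (x : X) (y : V), (∀ x', A x x' + c x' y = 0) →
      (∀ y', c x y' + S.1 y y' = 0) →
      ∃ hy : y ∈ Z, ∀ z' : Z, (ρ S + β).1 ⟨y, hy⟩ z' = 0 := by
    intro S x y h1 h2
    have hy : y ∈ Z := (hZ y).2 fun k hk => by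
      have h3 := h1 k
      rw [hA, hk, LinearMap.zero_apply, zero_add] at h3
      exact h3
    have h4 : A (x - σ ⟨y, hy⟩) = 0 := by
      refine LinearMap.ext fun x' => ?_
      rw [map_sub, LinearMap.sub_apply, LinearMap.zero_apply, sub_eq_zero]
      exact add_right_cancel ((h1 x').trans (hσ ⟨y, hy⟩ x').symm)
    refine ⟨hy, fun z' => ?_⟩
    rw [hval]
    have h6 := (hZ z').1 z'.2 _ h4
    rw [map_sub, LinearMap.sub_apply, sub_eq_zero] at h6
    rw [← h6, add_comm]
    exact h2 z'
  have hcard : ∀ S : Sy V, nG A c S.1 = nR (ρ S + β) := by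
    intro S
    let f : {p : X × V // (∀ x', A p.1 x' + c x' p.2 = 0) ∧ ∀ y', c p.1 y' + S.1 p.2 y' = 0} →
        {x : Z // ∀ y, (ρ S + β).1 x y = 0} := fun p =>
      ⟨⟨p.1.2, (hmap S p.1.1 p.1.2 p.2.1 p.2.2).choose⟩,
        (hmap S p.1.1 p.1.2 p.2.1 p.2.2).choose_spec⟩
    have hf : ∀ p, ((f p).1 : V) = p.1.2 := fun p => rfl
    refine Nat.card_congr (Equiv.ofBijective f ⟨?_, ?_⟩)
    · intro p p' h
      have hy : p.1.2 = p'.1.2 := by rw [← hf p, ← hf p', h]
      have hx : p.1.1 = p'.1.1 := by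
        rw [← sub_eq_zero]
        refine hc _ fun v => ?_
        have e1 := p.2.2 v
        have e2 := p'.2.2 v
        rw [← hy] at e2
        rw [map_sub, LinearMap.sub_apply, sub_eq_zero]
        exact add_right_cancel (e1.trans e2.symm)
      exact Subtype.ext (Prod.ext hx hy)
    · rintro ⟨z, hz⟩
      obtain ⟨k, hk, hk'⟩ := hdd (-(S.1 (z : V) + c (σ z))) (fun z' hz' => by
        have h1 := hz ⟨z', hz'⟩
        rw [hval] at h1
        show -(S.1 (z : V) z' + c (σ z) z') = 0
        rw [neg_eq_zero]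
        exact h1)
      have h2 : (∀ x', A (σ z + k) x' + c x' (z : V) = 0) ∧
          ∀ y', c (σ z + k) y' + S.1 (z : V) y' = 0 := by
        constructor
        · intro x'
          rw [map_add, hk, add_zero]
          exact hσ z x'
        · intro y'
          rw [map_add, hk']
          show c (σ z) y' + -(S.1 (z : V) y' + c (σ z) y') + S.1 (z : V) y' = 0
          ring
      exact ⟨⟨(σ z + k, (z : V)), h2⟩, Subtype.ext (Subtype.ext rfl)⟩
  refine ⟨Z, hfin, fun n => ?_⟩
  rw [← fr_equiv (Equiv.addRight β) (fun T : Sy Z => nR T = n), ← fr_comp ρ hρ]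
  have h5 : (fun S : Sy V => nG A c S.1 = n) =
      fun g : Sy V => nR ((Equiv.addRight β) (ρ g)) = n := by
    funext T
    rw [hcard T]
    rfl
  rw [h5]

end

/-- **XL-ABS** -/
theorem t_ABS : S_ABS := fun V X _ _ _ _ _ _ A c hA hc => fr_nG A hA c hc

end Pool.Agent.U695.XH.ABSf
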