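import Pool.Agent.U695.XH.Stm

/-! XL-BOX: the count in a box (adapted from `Pool.Agent.Y688.XK.BOX`). -/

set_option autoImplicit false

open scoped Classical

namespace Pool.Agent.U695.XH.BOXh

open Finset
open H385 (ZI nrm)
open Pool.Agent.Y699 (PP)
open Pool.Agent.U695.XG (Nd HB prs S_EQ cs cs_symm)
open Pool.Agent.U695.XH
open Pool.Agent.U695.XG.BOXf (lb LN nd_iff ext_sum HB_sub)

section one
variable {ι : Type} [Fintype ι] [LinearOrder ι] {S₀ : Finset ZI} {p : ι → ZI}

/-- the points of the union -/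
noncomputable def em (S₀ : Finset ZI) (p : ι → ZI) : S₀ ⊕ ι → ↥(S₀ ∪ univ.image p)
  | Sum.inl u => ⟨u, Finset.mem_union_left _ u.2⟩
  | Sum.inr l => ⟨p l, Finset.mem_union_right _ (Finset.mem_image_of_mem _ (Finset.mem_univ _))⟩

omit [LinearOrder ι] in
theorem em_bij (hp : Function.Injective p) (hd : ∀ i, p i ∉ S₀) :
    Function.Bijective (em S₀ p) := by
  constructor
  · rintro (u | l) (v | k) h
    · have h1 : (em S₀ p (Sum.inl u) : ZI) = em S₀ p (Sum.inl v) := congrArg Subtype.val h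
      exact congrArg Sum.inl (Subtype.ext h1)
    · have h1 : (u : ZI) = p k := congrArg Subtype.val h
      exact absurd (h1 ▸ u.2) (hd k)
    · have h1 : p l = (v : ZI) := congrArg Subtype.val h
      exact absurd (h1 ▸ v.2) (hd l)
    · have h1 : p l = p k := congrArg Subtype.val h
      exact congrArg Sum.inr (hp h1)
  · rintro ⟨x, hx⟩
    rcases Finset.mem_union.1 hx with h | h
    · exact ⟨Sum.inl ⟨x, h⟩, rfl⟩
    · obtain ⟨k, -, rfl⟩ := Finset.mem_image.1 h
      exact ⟨Sum.inr k, rfl⟩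

/-- functions on the union -/
noncomputable def fe (hp : Function.Injective p) (hd : ∀ i, p i ∉ S₀) :
    (↥(S₀ ∪ univ.image p) → ZMod 2) ≃ (S₀ → ZMod 2) × (ι → ZMod 2) :=
  ((Equiv.ofBijective _ (em_bij hp hd)).symm.arrowCongr (Equiv.refl (ZMod 2))).trans
    (Equiv.sumArrowEquivProdArrow _ _ _)

omit [LinearOrder ι] in
theorem fe_one (hp : Function.Injective p) (hd : ∀ i, p i ∉ S₀)
    (v : ↥(S₀ ∪ univ.image p) → ZMod 2) (u : S₀) : (fe hp hd v).1 u = v (em S₀ p (Sum.inl u)) :=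
  rfl

omit [LinearOrder ι] in
theorem fe_two (hp : Function.Injective p) (hd : ∀ i, p i ∉ S₀)
    (v : ↥(S₀ ∪ univ.image p) → ZMod 2) (l : ι) : (fe hp hd v).2 l = v (em S₀ p (Sum.inr l)) :=
  rfl

omit [LinearOrder ι] in
theorem sum_em (hp : Function.Injective p) (hd : ∀ i, p i ∉ S₀)
    (f : ↥(S₀ ∪ univ.image p) → ZMod 2) :
    ∑ x, f x = ∑ u : S₀, f (em S₀ p (Sum.inl u)) + ∑ l, f (em S₀ p (Sum.inr l)) := by
  rw [← (Equiv.ofBijective _ (em_bij hp hd)).sum_comp, Fintype.sum_sum_type]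
  rfl

/-- **the numbers of solutions agree** -/
theorem nS_eq (hp : Function.Injective p) (hpr : ∀ i, PP (p i)) (hS₀ : ∀ u ∈ S₀, PP u)
    (hd : ∀ i, p i ∉ S₀) :
    nS (S₀ ∪ univ.image p) = nA (fun u v : S₀ => cs u v) (fun (u : S₀) l => cs u (p l))
      (Pool.Agent.U695.XG.ext fun e : prs ι => cs (p e.1.1) (p e.1.2)) := by
  unfold nS nA
  refine Nat.card_congr (Equiv.subtypeEquiv (fe hp hd) fun v => ?_)
  have hsym : ∀ k : ι, ∑ u : S₀, cs (p k) u * (v (em S₀ p (Sum.inl u)) - v (em S₀ p (Sum.inr k))) =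
      ∑ u : S₀, cs u (p k) * (v (em S₀ p (Sum.inl u)) - v (em S₀ p (Sum.inr k))) := by
    intro k
    refine Finset.sum_congr rfl fun u _ => ?_
    rw [cs_symm (hpr k) (hS₀ u u.2)]
  have hext := fun k => ext_sum hpr k (fun l => v (em S₀ p (Sum.inr l)))
  constructor
  · intro h
    refine ⟨fun u => ?_, fun k => ?_⟩
    · have h1 := h (em S₀ p (Sum.inl u))
      rw [sum_em hp hd] at h1
      exact h1
    · have h1 := h (em S₀ p (Sum.inr k))
      rw [sum_em hp hd] at h1
      have h2 : ∑ u : S₀, cs (p k) u * (v (em S₀ p (Sum.inl u)) - v (em S₀ p (Sum.inr k))) +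
        ∑ l, cs (p k) (p l) * (v (em S₀ p (Sum.inr l)) - v (em S₀ p (Sum.inr k))) = 0 := h1
      rw [hsym, ← hext k] at h2
      exact h2
  · rintro ⟨h1, h2⟩ x
    obtain ⟨y, rfl⟩ := (em_bij hp hd).2 x
    rw [sum_em hp hd]
    rcases y with u | k
    · exact h1 u
    · have h3 : ∑ u : S₀, cs u (p k) * (v (em S₀ p (Sum.inl u)) - v (em S₀ p (Sum.inr k))) +
        ∑ l, Pool.Agent.U695.XG.ext (fun e : prs ι => cs (p e.1.1) (p e.1.2)) k l *
          (v (em S₀ p (Sum.inr l)) - v (em S₀ p (Sum.inr k))) = 0 := h2 k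
      rw [hext k, ← hsym] at h3
      exact h3

end one

/-- **The count in a box.** -/
theorem t_BOX : S_BOX := by
  intro hEQ hLA r ι _ _ C X κ S₀ hκ hCX hHB hS₀ hC hdis hcard
  obtain ⟨cc, hcc⟩ : ∃ cc : ℝ, cc = 2 ^ (r + 2) * (2 ^ S₀.card / 2 ^ Fintype.card ι) := ⟨_, rfl⟩
  obtain ⟨R, hR⟩ : ∃ R : ℝ, R = 2 ^ (prs ι).card * (κ * ∏ j, (X j : ℝ)) := ⟨_, rfl⟩
  have hcc0 : 0 ≤ cc := by rw [hcc]; positivity
  have hR0 : 0 ≤ R := by
    rw [hR]
    exact mul_nonneg (by positivity)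
      (mul_nonneg hκ (Finset.prod_nonneg fun j _ => by positivity))
  -- facts on tuples
  have hinj : ∀ p ∈ Fintype.piFinset C, Function.Injective p := by
    intro p hp i j hij
    rw [Fintype.mem_piFinset] at hp
    by_contra hne
    have h1 := Finset.disjoint_left.1 (hdis i j hne) (hp i)
    rw [hij] at h1
    exact h1 (hp j)
  have hd : ∀ p ∈ Fintype.piFinset C, ∀ i, p i ∉ S₀ := by
    intro p hp i
    rw [Fintype.mem_piFinset] at hp
    exact (hC i _ (hp i)).2
  have hpr : ∀ p ∈ Fintype.piFinset C, ∀ i, PP (p i) := by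
    intro p hp i
    rw [Fintype.mem_piFinset] at hp
    exact (hC i _ (hp i)).1
  -- the part with given labels
  have h1 : ∀ β : ι → S₀ → ZMod 2, LN S₀ β →
      |(((Fintype.piFinset C).filter fun p => (fun i => lb S₀ (p i)) = β ∧
          Gr r (S₀ ∪ univ.image p)).card : ℝ) -
        cr r * (((Fintype.piFinset C).filter fun p => (fun i => lb S₀ (p i)) = β).card : ℝ)| ≤
      cc * (((Fintype.piFinset C).filter fun p => (fun i => lb S₀ (p i)) = β).card : ℝ) + R := by
    intro β hβ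
    obtain ⟨C', hC'⟩ : ∃ C' : ι → Finset ZI, C' = fun i => (C i).filter fun q => lb S₀ q = β i :=
      ⟨_, rfl⟩
    have hpi : (Fintype.piFinset C).filter (fun p => (fun i => lb S₀ (p i)) = β) =
        Fintype.piFinset C' := by
      ext p
      simp only [Finset.mem_filter, Fintype.mem_piFinset, hC']
      constructor
      · rintro ⟨h2, h3⟩ i
        exact ⟨h2 i, congrFun h3 i⟩
      · intro h2
        exact ⟨fun i => (h2 i).1, funext fun i => (h2 i).2⟩
    have h2 := hLA r S₀ ι (fun u v => cs u v) (fun u l => β l u)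
      (by rw [Fintype.card_coe]; exact hcard)
      (fun u v => cs_symm (hS₀ u u.2) (hS₀ v v.2))
      (fun w hw => hβ w hw)
    obtain ⟨Q, hQ⟩ : ∃ Q : (prs ι → ZMod 2) → Prop, Q = fun α =>
        nA (fun u v : S₀ => cs u v) (fun (u : S₀) l => β l u)
          (Pool.Agent.U695.XG.ext α) = 2 ^ (r + 1) := ⟨_, rfl⟩
    have h3 := hEQ ι C' X κ hκ
      (fun i => (Finset.card_le_card (by rw [hC']; exact Finset.filter_subset _ _)).trans (hCX i))
      (by rw [hC']; exact HB_sub hHB fun i q => lb S₀ q = β i) Q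
    have h4 : ((Fintype.piFinset C).filter fun p => (fun i => lb S₀ (p i)) = β ∧
        Gr r (S₀ ∪ univ.image p)) = ((Fintype.piFinset C').filter fun p =>
          Q fun e => cs (p e.1.1) (p e.1.2)) := by
      rw [← hpi, Finset.filter_filter]
      refine Finset.filter_congr fun p hp => ?_
      refine and_congr_right fun hl => ?_
      unfold Gr
      rw [nS_eq (hinj p hp) (hpr p hp) hS₀ (hd p hp)]
      subst hl
      rw [hQ]
      exact Iff.rfl
    have h5 : (((Fintype.piFinset C').card : ℕ) : ℝ) = ∏ j, ((C' j).card : ℝ) := by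
      rw [Fintype.card_piFinset]
      push_cast
      rfl
    rw [h4, hpi, h5]
    rw [Fintype.card_coe, ← hcc] at h2
    rw [← hR] at h3
    obtain ⟨n, hn⟩ : ∃ n : ℝ, n = (((Fintype.piFinset C').filter fun p =>
          Q fun e => cs (p e.1.1) (p e.1.2)).card : ℝ) := ⟨_, rfl⟩
    obtain ⟨q, hq⟩ : ∃ q : ℝ, q = ((univ.filter Q).card : ℝ) / 2 ^ (prs ι).card := ⟨_, rfl⟩
    obtain ⟨P, hP⟩ : ∃ P : ℝ, P = ∏ j, ((C' j).card : ℝ) := ⟨_, rfl⟩
    have hP0 : 0 ≤ P := by
      rw [hP]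
      exact Finset.prod_nonneg fun j _ => by positivity
    have h2' : |q - cr r| ≤ cc := by
      have e : (univ.filter Q) = (univ.filter fun α : prs ι → ZMod 2 =>
          nA (fun u v : S₀ => cs u v) (fun (u : S₀) l => β l u)
            (Pool.Agent.U695.XG.ext α) = 2 ^ (r + 1)) := by
        ext α
        rw [Finset.mem_filter, Finset.mem_filter, hQ]
      rw [hq, e]
      exact h2
    rw [← hn, ← hq, ← hP] at h3
    rw [← hn, ← hP]
    have h6 : |n - cr r * P| ≤ |n - q * P| + |q - cr r| * P := by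
      have h7 : n - cr r * P = (n - q * P) + (q - cr r) * P := by ring
      have h8 : |(q - cr r) * P| = |q - cr r| * P := by rw [abs_mul, abs_of_nonneg hP0]
      rw [h7, ← h8]
      exact abs_add_le _ _
    have h7 : |q - cr r| * P ≤ cc * P := mul_le_mul_of_nonneg_right h2' hP0
    linarith
  -- sum over the labels
  obtain ⟨LL, hLL⟩ : ∃ LL : Finset (ι → S₀ → ZMod 2), LL = univ.filter (fun β => LN S₀ β) :=
    ⟨_, rfl⟩
  have hfib : ∀ T : (ι → ZI) → Prop,
      (((Fintype.piFinset C).filter fun p => Nd S₀ (univ.image p) ∧ T p).card : ℝ) =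
      ∑ β ∈ LL, (((Fintype.piFinset C).filter fun p =>
        (fun i => lb S₀ (p i)) = β ∧ T p).card : ℝ) := by
    intro T
    rw [Finset.card_eq_sum_card_fiberwise (f := fun (p : ι → ZI) (i : ι) => lb S₀ (p i))
      (t := LL) (by
        intro p hp
        rw [Finset.mem_coe, Finset.mem_filter] at hp
        rw [Finset.mem_coe, hLL, Finset.mem_filter]
        exact ⟨Finset.mem_univ _, nd_iff.1 hp.2.1⟩)]
    push_cast
    refine Finset.sum_congr rfl fun β hβ => ?_
    rw [hLL, Finset.mem_filter] at hβ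
    congr 2
    ext p
    simp only [Finset.mem_filter]
    constructor
    · rintro ⟨⟨h3, h4, h4'⟩, h5⟩
      exact ⟨h3, h5, h4'⟩
    · rintro ⟨h3, h4, h5⟩
      refine ⟨⟨h3, ?_, h5⟩, h4⟩
      rw [nd_iff, h4]
      exact hβ.2
  have hf1 := hfib fun p => Gr r (S₀ ∪ univ.image p)
  have hf2 := hfib fun _ => True
  simp only [and_true] at hf2
  rw [← hcc, hf1, hf2, Finset.mul_sum, ← Finset.sum_sub_distrib]
  refine (Finset.abs_sum_le_sum_abs _ _).trans ?_
  refine (Finset.sum_le_sum fun β hβ => h1 β (by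
    rw [hLL] at hβ
    exact (Finset.mem_filter.1 hβ).2)).trans ?_
  rw [Finset.sum_add_distrib, ← Finset.mul_sum, Finset.sum_const, nsmul_eq_mul]
  have h5 : ((LL.card : ℕ) : ℝ) ≤ 2 ^ (S₀.card * Fintype.card ι) := by
    have h6 : LL.card ≤ Fintype.card (ι → S₀ → ZMod 2) :=
      Finset.card_le_univ _
    rw [Fintype.card_fun, Fintype.card_fun, ZMod.card, Fintype.card_coe, ← pow_mul] at h6
    exact_mod_cast h6
  have h6 := mul_le_mul_of_nonneg_right h5 hR0
  rw [pow_add, mul_assoc, ← hR]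
  linarith

end Pool.Agent.U695.XH.BOXh
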