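import Pool.Agent.U695.XH.Stm

/-!
# Project XL: the probability that the radical of a random symmetric form has dimension `r`
-/

set_option autoImplicit false

open scoped Classical

namespace Pool.Agent.U695.XH.LIMf

open Finset
open Pool.Agent.U695.XH
open Pool.Agent.U695.XG (c2 S_SYM S_C2)
open Pool.Agent.Y759.CX (fr fr_nonneg fr_le_one)
open Pool.Agent.U695.XG.LA (Sy Ns sp fr_Ns)

lemma nR_one {V : Type} [AddCommGroup V] [Module (ZMod 2) V] (S : Sy V) :
    nR S = 1 ↔ Ns S.1 := by
  unfold nR Ns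
  rw [Nat.card_eq_one_iff_unique]
  have h0 : ∀ y, S.1 0 y = 0 := fun y => by rw [map_zero, LinearMap.zero_apply]
  constructor
  · rintro ⟨h, _⟩ x hx
    exact congrArg Subtype.val (h.elim (⟨x, hx⟩ : {x : V // ∀ y, S.1 x y = 0}) ⟨0, h0⟩)
  · intro h
    refine ⟨⟨fun a b => Subtype.ext ?_⟩, ⟨⟨0, h0⟩⟩⟩
    rw [h a.1 a.2, h b.1 b.2]

lemma two_le (r : ℕ) : (2 : ℝ) ≤ 2 ^ (r + 1) := by
  calc (2 : ℝ) = 2 ^ 1 := by norm_num
    _ ≤ 2 ^ (r + 1) := pow_le_pow_right₀ (by norm_num) (by omega)

lemma prod_ge (r : ℕ) : (1 : ℝ) ≤ ∏ i ∈ range r, ((2 : ℝ) ^ (i + 1) - 1) := by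
  induction r with
  | zero => simp
  | succ r ih =>
    rw [prod_range_succ]
    have h1 := two_le r
    nlinarith

lemma cr_succ (r : ℕ) : ((2 : ℝ) ^ (r + 1) - 1) * cr (r + 1) = cr r := by
  unfold cr
  rw [prod_range_succ]
  have h1 : (∏ i ∈ range r, ((2 : ℝ) ^ (i + 1) - 1)) ≠ 0 := by
    have := prod_ge r
    linarith
  have h2 : ((2 : ℝ) ^ (r + 1) - 1) ≠ 0 := by
    have := two_le r
    linarith
  rw [← mul_div_assoc, mul_comm ((2 : ℝ) ^ (r + 1) - 1) c2, mul_div_mul_right _ _ h2]

lemma cr_zero : cr 0 = c2 := by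
  unfold cr
  rw [prod_range_zero, div_one]

theorem t_LIM : S_REC → S_SYM → S_C2 → S_LIM := by
  intro hrec hsym hc2
  obtain ⟨hprod, hc0, hc1, -, -⟩ := hc2
  intro V _ _ _ r
  induction r generalizing V with
  | zero =>
    have h1 : (fun S : Sy V => nR S = 2 ^ 0) = fun S : Sy V => Ns S.1 := by
      funext S
      rw [pow_zero]
      exact propext (nR_one S)
    have e1 : ((2 : ℝ) ^ (0 + 1) - 1) = 1 := by norm_num
    rw [h1, fr_Ns hsym, cr_zero, e1, one_mul]
    change |sp (Module.finrank (ZMod 2) V) - c2| ≤ _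
    refine (hprod _).trans ?_
    have h2 : (1 / 4 : ℝ) = (1 / 2) ^ 2 := by norm_num
    rw [h2, ← pow_mul]
    exact pow_le_pow_of_le_one (by norm_num) (by norm_num) (by omega)
  | succ r ih =>
    have hcr0 : 0 ≤ cr (r + 1) := by
      unfold cr
      have := prod_ge (r + 1)
      positivity
    have hcr1 : cr (r + 1) ≤ 1 := by
      unfold cr
      have := prod_ge (r + 1)
      rw [div_le_one (by linarith)]
      linarith
    have ha := two_le r
    rcases Nat.eq_zero_or_pos (Module.finrank (ZMod 2) V) with h0 | hpos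
    · have hsub : Subsingleton V := Module.finrank_zero_iff.mp h0
      have h1 : (fun S : Sy V => nR S = 2 ^ (r + 1)) = fun _ => False := by
        funext S
        apply propext
        refine ⟨fun h => ?_, fun h => h.elim⟩
        have h2 : nR S = 1 := (nR_one S).mpr fun x _ => Subsingleton.elim _ _
        rw [h2] at h
        have h3 : 1 < 2 ^ (r + 1) := Nat.one_lt_pow (by omega) (by norm_num)
        omega
      have h2 : fr (fun S : Sy V => nR S = 2 ^ (r + 1)) = 0 := by
        rw [h1]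
        unfold fr
        have : IsEmpty {g : Sy V // False} := ⟨fun x => x.2⟩
        rw [Nat.card_of_isEmpty, Nat.cast_zero, zero_div]
      rw [h2, h0, pow_zero, mul_one, zero_sub, abs_neg, abs_of_nonneg hcr0]
      have h3 : (2 : ℝ) ^ (r + 1 + 1) = 2 * 2 ^ (r + 1) := by ring
      rw [h3]
      linarith
    · obtain ⟨m, hm⟩ : ∃ m, Module.finrank (ZMod 2) V = m + 1 :=
        ⟨Module.finrank (ZMod 2) V - 1, by omega⟩
      have hW : Module.finrank (ZMod 2) (Fin m → ZMod 2) = m := by
        rw [Module.finrank_fin_fun]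
      have h1 := hrec V (Fin m → ZMod 2) r (by rw [hW, hm])
      have h2 := ih (Fin m → ZMod 2)
      rw [hW] at h2
      rw [hm] at h1 ⊢
      have hB0 : 0 ≤ fr (fun S : Sy (Fin m → ZMod 2) => nR S = 2 ^ r) := fr_nonneg _
      have hB1 : fr (fun S : Sy (Fin m → ZMod 2) => nR S = 2 ^ r) ≤ 1 := fr_le_one _
      have h3 := cr_succ r
      have e1 : (2 : ℝ) ^ (r + 1 + 1) = 2 * 2 ^ (r + 1) := by ring
      rw [e1]
      set A := fr (fun S : Sy V => nR S = 2 ^ (r + 1))
      set B := fr (fun S : Sy (Fin m → ZMod 2) => nR S = 2 ^ r)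
      set ε : ℝ := (1 / 2) ^ (m + 1) with hε
      have hε0 : 0 < ε := by positivity
      have h4 : ((1 : ℝ) / 2) ^ m = 2 * ε := by
        rw [hε, pow_succ]
        ring
      rw [h4] at h2
      set a : ℝ := 2 ^ (r + 1)
      rw [abs_le] at h2 ⊢
      obtain ⟨h5, h6⟩ := h2
      have ha1 : 0 < a - 1 := by linarith
      have h7 : (a - 1) * (2 * ε) + ε ≤ (a - 1) * ((2 * a - 1) * ε) := by nlinarith
      constructor
      · have h8 : (a - 1) * (-((2 * a - 1) * ε)) ≤ (a - 1) * (A - cr (r + 1)) := by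
          have : (a - 1) * (A - cr (r + 1)) = (1 - ε) * B - cr r := by
            rw [mul_sub, h1, h3]
          rw [this]
          nlinarith
        exact le_of_mul_le_mul_left h8 ha1
      · have h8 : (a - 1) * (A - cr (r + 1)) ≤ (a - 1) * ((2 * a - 1) * ε) := by
          have : (a - 1) * (A - cr (r + 1)) = (1 - ε) * B - cr r := by
            rw [mul_sub, h1, h3]
          rw [this]
          nlinarith
        exact le_of_mul_le_mul_left h8 ha1

end Pool.Agent.U695.XH.LIMf
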