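import Pool.Agent.U695.XH.Asy
import Pool.Agent.U695.XH.REC
import Pool.Agent.U695.XH.LIM
import Pool.Agent.U695.XH.ABS
import Pool.Agent.U695.XH.LA
import Pool.Agent.U695.XH.BOX

/-!
# Project XH: the exact law of the kernels of the Laplacians over `ℤ[i]`
-/

set_option autoImplicit false

open scoped Classical
open Filter

namespace Pool.Agent.U695.XH

open Pool.Agent.U695.XG

theorem t_LIM : S_LIM := LIMf.t_LIM RECf.t_REC t_SYM t_C2

theorem t_LA : S_LA := LAf.t_LA ABSf.t_ABS t_LIM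

theorem t_KEG (q : Finset ℕ) (r : ℕ) : KEYf.KEG q (Gr r) (cr r) (2 ^ (r + 2)) :=
  KEYf.t_KEG BILf.t_BIL (BOXh.t_BOX EQf.t_EQ t_LA r) (by positivity)

/-- **the exact law of the kernels**, for every class of positive density -/
theorem t_law {q : Finset ℕ} (hq : S_LOW q) (r : ℕ) : Tendsto
    (fun X : ℕ => (((SS q X).filter (Gr r)).card : ℝ) / ((SS q X).card : ℝ)) atTop (nhds (cr r)) :=
  t_DQ (t_KEG q) CNTf.t_CNT FEWf.t_BAD FEWf.t_FEW hq t_C2 r

end Pool.Agent.U695.XH
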